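import Pool.Agent.H8.ZA.Targets

/-!
# Zariski dense orbits: only finitely many constants give a common factor
-/

open MvPolynomial
open Pool.Agent.H8.ZA

namespace Pool.Agent.H94.ZA

theorem pf_COP : T_COP := by
  intro L _ G S hS
  classical
  set s : Set (MvPolynomial (Fin 2) L) :=
    {p | p ∈ UniqueFactorizationMonoid.factors S} with hs
  have hsfin : s.Finite := by
    have : s = ((UniqueFactorizationMonoid.factors S).toFinset : Set (MvPolynomial (Fin 2) L)) := by
      ext p
      simp [hs]
    rw [this]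
    exact Finset.finite_toSet _
  have key : ∀ c ∈ {c : L | ¬ IsRelPrime (G - C c) S}, ∃ p ∈ s, p ∣ G - C c := by
    intro c hc
    have hc' : ¬ IsRelPrime (G - C c) S := hc
    unfold IsRelPrime at hc'
    push Not at hc'
    obtain ⟨d, hd1, hd2, hdu⟩ := hc'
    have hd0 : d ≠ 0 := by
      rintro rfl
      exact hS (zero_dvd_iff.1 hd2)
    obtain ⟨q, hq, hqd⟩ := WfDvdMonoid.exists_irreducible_factor hdu hd0
    obtain ⟨p, hp, hqp⟩ := UniqueFactorizationMonoid.exists_mem_factors_of_dvd hS hq
      (hqd.trans hd2)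
    exact ⟨p, hp, hqp.symm.dvd.trans (hqd.trans hd1)⟩
  choose! P hP1 hP2 using key
  refine Set.Finite.of_injOn (f := P) (t := s) (fun c hc => hP1 c hc) ?_ hsfin
  intro c hc c' hc' hcc
  by_contra hne
  have h1 := hP2 c hc
  have h2 := hP2 c' hc'
  rw [← hcc] at h2
  have h3 : P c ∣ C (c' - c) := by
    have h4 := dvd_sub h1 h2
    have h5 : G - C c - (G - C c') = (C (c' - c) : MvPolynomial (Fin 2) L) := by
      rw [C_sub]
      ring
    rwa [h5] at h4
  have hu : IsUnit (C (c' - c) : MvPolynomial (Fin 2) L) :=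
    (isUnit_iff_ne_zero.2 (sub_ne_zero.2 (Ne.symm hne))).map C
  have hirr : Irreducible (P c) := UniqueFactorizationMonoid.irreducible_of_factor _ (hP1 c hc)
  exact hirr.not_isUnit (isUnit_of_dvd_unit h3 hu)

end Pool.Agent.H94.ZA
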