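import Pool.Agent.H8.ZA.Targets

/-!
# Zariski dense orbits: zeros on parallel lines
-/

open MvPolynomial
open Pool.Agent.H8.ZA

namespace Pool.Agent.H94.ZA

variable {L : Type} [Field L]

/-- restriction to the line `x_1 = c` -/
noncomputable def phi (c : L) : MvPolynomial (Fin 2) L →ₐ[L] Polynomial L :=
  aeval ![Polynomial.X, Polynomial.C c]

theorem phi_X0 (c : L) : phi c (X 0) = Polynomial.X := by
  simp [phi]

theorem phi_X1 (c : L) : phi c (X 1) = Polynomial.C c := by
  simp [phi]

theorem phi_monomial (c : L) (m : Fin 2 →₀ ℕ) (a : L) :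
    phi c (monomial m a) = Polynomial.C (a * c ^ m 1) * Polynomial.X ^ m 0 := by
  rw [phi, aeval_monomial, Finsupp.prod_fintype _ _ (fun i => pow_zero _), Fin.prod_univ_two]
  simp only [Matrix.cons_val_zero, Matrix.cons_val_one, Polynomial.algebraMap_eq, map_mul,
    map_pow]
  ring

theorem phi_eq_sum (c : L) (q : MvPolynomial (Fin 2) L) :
    phi c q = ∑ m ∈ q.support, Polynomial.C (coeff m q * c ^ m 1) * Polynomial.X ^ m 0 := by
  conv_lhs => rw [q.as_sum, map_sum]
  exact Finset.sum_congr rfl fun m _ => phi_monomial c m _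

theorem sum_le_of_mem {q : MvPolynomial (Fin 2) L} {e : ℕ} (hq : q.totalDegree ≤ e)
    {m : Fin 2 →₀ ℕ} (hm : m ∈ q.support) : m 0 + m 1 ≤ e := by
  have h := le_totalDegree hm
  rw [Finsupp.sum_fintype _ _ (fun _ => rfl), Fin.sum_univ_two] at h
  exact h.trans hq

theorem phi_natDegree_le (c : L) (q : MvPolynomial (Fin 2) L) (e : ℕ) (hq : q.totalDegree ≤ e) :
    (phi c q).natDegree ≤ e := by
  rw [phi_eq_sum]
  apply Polynomial.natDegree_sum_le_of_forall_le
  intro m hm
  refine (Polynomial.natDegree_C_mul_X_pow_le _ _).trans ?_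
  have := sum_le_of_mem hq hm
  omega

theorem phi_coeff (c : L) (q : MvPolynomial (Fin 2) L) (e : ℕ) (hq : q.totalDegree ≤ e) :
    (phi c q).coeff e = coeff (Finsupp.single 0 e) q := by
  classical
  rw [phi_eq_sum, Polynomial.finsetSum_coeff]
  simp only [Polynomial.coeff_C_mul_X_pow]
  rw [Finset.sum_eq_single (Finsupp.single 0 e)]
  · simp
  · intro m hm hne
    have h := sum_le_of_mem hq hm
    rw [if_neg]
    intro he
    apply hne
    ext i
    fin_cases i
    · simp [he]
    · simp
      omega
  · intro hn
    rw [notMem_support_iff] at hn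
    rw [hn]
    simp

theorem phi_natDegree (c : L) (q : MvPolynomial (Fin 2) L) (e : ℕ) (hq : q.totalDegree ≤ e)
    (h0 : coeff (Finsupp.single 0 e) q ≠ 0) : (phi c q).natDegree = e := by
  apply Polynomial.natDegree_eq_of_le_of_coeff_ne_zero (phi_natDegree_le c q e hq)
  rwa [phi_coeff c q e hq]

theorem phi_aeval_X0 (c : L) (h : Polynomial L) :
    phi c (Polynomial.aeval (X 0 : MvPolynomial (Fin 2) L) h) = h := by
  rw [← Polynomial.aeval_algHom_apply, phi_X0, Polynomial.aeval_X_left_apply]

theorem pf_LOZ : T_LOZ := by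
  intro L _ e ζ S J hζ h0 hS hfin
  classical
  set I : Ideal (MvPolynomial (Fin 2) L) := Ideal.span {ζ, S} with hI
  set z : L → Polynomial L := fun c => phi c ζ with hz
  have hzd : ∀ c, (z c).natDegree = e := fun c => phi_natDegree c ζ e hζ h0
  have hphiS : ∀ c ∈ J, phi c S = 0 := by
    intro c hc
    obtain ⟨T, hT⟩ := hS
    rw [hT, map_mul, map_prod]
    have : ∏ x ∈ J, phi c (X 1 - C x) = 0 := by
      apply Finset.prod_eq_zero hc
      rw [map_sub, phi_X1, ← algebraMap_eq, AlgHom.commutes, Polynomial.algebraMap_eq, sub_self]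
    rw [this, zero_mul]
  -- the map to the product
  let B : J → Type := fun c => Polynomial L ⧸ Ideal.span {z (c : L)}
  let F : MvPolynomial (Fin 2) L →ₐ[L] ((c : J) → Polynomial L ⧸ Ideal.span {z (c : L)}) :=
    AlgHom.pi fun c => (Ideal.Quotient.mkₐ L (Ideal.span {z (c : L)})).comp (phi (c : L))
  have hFap : ∀ q (c : J), F q c = Ideal.Quotient.mk (Ideal.span {z (c : L)}) (phi (c : L) q) :=
    fun q c => rfl
  have hker : ∀ a ∈ I, F a = 0 := by
    intro a ha
    have hle : I ≤ RingHom.ker F := by
      rw [hI, Ideal.span_le]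
      rintro x (rfl | hx)
      · show F x = 0
        funext c
        rw [hFap]
        exact Ideal.Quotient.eq_zero_iff_mem.2 (Ideal.subset_span rfl)
      · have hx' : x = S := hx
        subst hx'
        show F x = 0
        funext c
        rw [hFap, hphiS c c.2, map_zero]
        rfl
    exact hle ha
  let G : (MvPolynomial (Fin 2) L ⧸ I) →ₐ[L]
      ((c : J) → Polynomial L ⧸ Ideal.span {z (c : L)}) := Ideal.Quotient.liftₐ I F hker
  have hG : ∀ q, G (Ideal.Quotient.mk I q) = F q := fun q => rfl
  have hsurj : Function.Surjective G := by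
    intro y
    have hy : ∀ c : J, ∃ h : Polynomial L, Ideal.Quotient.mk (Ideal.span {z (c : L)}) h = y c :=
      fun c => Ideal.Quotient.mk_surjective (y c)
    choose h hh using hy
    -- the Lagrange idempotents
    let E : J → MvPolynomial (Fin 2) L := fun c =>
      Polynomial.aeval (X 1 : MvPolynomial (Fin 2) L) (Lagrange.basis J id (c : L))
    have hE : ∀ c d : J, phi (d : L) (E c) = if c = d then 1 else 0 := by
      intro c d
      show phi (d : L) (Polynomial.aeval (X 1 : MvPolynomial (Fin 2) L)
        (Lagrange.basis J id (c : L))) = _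
      rw [← Polynomial.aeval_algHom_apply, phi_X1]
      have h1 : Polynomial.aeval (Polynomial.C (d : L)) (Lagrange.basis J id (c : L)) =
          Polynomial.C (Polynomial.eval (d : L) (Lagrange.basis J id (c : L))) := by
        rw [← Polynomial.algebraMap_eq, Polynomial.aeval_algebraMap_apply, Polynomial.coe_aeval_eq_eval]
      rw [h1]
      by_cases hcd : c = d
      · subst hcd
        rw [if_pos rfl]
        have := Lagrange.eval_basis_self (s := J) (v := id) (i := (c : L))
          (Set.injOn_id _) c.2
        simp only [id] at this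
        rw [this, Polynomial.C_1]
      · rw [if_neg hcd]
        have hne : (c : L) ≠ (d : L) := fun h => hcd (Subtype.ext h)
        have := Lagrange.eval_basis_of_ne (s := J) (v := id) (i := (c : L)) (j := (d : L)) hne d.2
        simp only [id] at this
        rw [this, Polynomial.C_0]
    refine ⟨Ideal.Quotient.mk I (∑ c : J, Polynomial.aeval (X 0 : MvPolynomial (Fin 2) L) (h c) *
      E c), ?_⟩
    rw [hG]
    funext d
    rw [hFap, map_sum]
    have : ∑ c : J, phi (d : L) (Polynomial.aeval (X 0 : MvPolynomial (Fin 2) L) (h c) * E c) =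
        h d := by
      rw [Finset.sum_eq_single d]
      · rw [map_mul, phi_aeval_X0, hE, if_pos rfl, mul_one]
      · intro c _ hcd
        rw [map_mul, hE, if_neg hcd, mul_zero]
      · intro hd
        exact absurd (Finset.mem_univ d) hd
    rw [this, hh]
  by_cases he : e = 0
  · rw [he, mul_zero]
    exact Nat.zero_le _
  have hzne : ∀ c, z c ≠ 0 := by
    intro c h
    apply he
    rw [← hzd c, h, Polynomial.natDegree_zero]
  have hfr : ∀ c : J, Module.finrank L (Polynomial L ⧸ Ideal.span {z (c : L)}) = e := by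
    intro c
    rw [finrank_quotient_span_eq_natDegree, hzd]
  have hmf : ∀ c : J, Module.Finite L (Polynomial L ⧸ Ideal.span {z (c : L)}) := by
    intro c
    have hpos : 0 < Module.finrank L (Polynomial L ⧸ Ideal.span {z (c : L)}) := by
      rw [hfr c]
      exact Nat.pos_of_ne_zero he
    exact Module.finite_of_finrank_pos hpos
  have h1 : Module.finrank L ((c : J) → Polynomial L ⧸ Ideal.span {z (c : L)}) = J.card * e := by
    rw [Module.finrank_pi_fintype]
    simp only [hfr]
    rw [Finset.sum_const, smul_eq_mul, Finset.card_univ, Fintype.card_coe]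
  rw [← h1]
  exact LinearMap.finrank_le_finrank_of_surjective (f := G.toLinearMap) hsurj

end Pool.Agent.H94.ZA
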