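import Pool.Agent.H8.ZA.Targets
import Mathlib.RingTheory.Unramified.Field

/-!
# Zariski dense orbits: the algebra of the Frobenius equations is reduced
-/

open MvPolynomial
open Pool.Agent.H8.ZA

namespace Pool.Agent.H94.ZA

theorem pf_RED : T_RED := by
  intro κ _ f f' Q hinv hQ2 hQ
  set J : Ideal (Po κ) := Ideal.span (Set.range fun i => X i ^ Q - f i) with hJ
  set y : Fin 3 → (Po κ ⧸ J) := fun i => Ideal.Quotient.mk J (f i) with hy
  have hyx : ∀ i, y i = (Ideal.Quotient.mk J (X i)) ^ Q := by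
    intro i
    rw [hy, ← map_pow]
    refine (Ideal.Quotient.eq.2 ?_).symm
    exact Ideal.subset_span ⟨i, rfl⟩
  have hDy : ∀ i, KaehlerDifferential.D κ (Po κ ⧸ J) (y i) = 0 := by
    intro i
    rw [hyx, Derivation.leibniz_pow]
    rw [← Nat.cast_smul_eq_nsmul κ, hQ, zero_smul]
  have hmk : ∀ q : Po κ, Ideal.Quotient.mk J (aeval f q) = aeval y q := by
    intro q
    have h : (Ideal.Quotient.mkₐ κ J).comp (aeval f : Po κ →ₐ[κ] Po κ) = aeval y := by
      apply algHom_ext
      intro i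
      rw [AlgHom.comp_apply, aeval_X, aeval_X]
      rfl
    exact DFunLike.congr_fun h q
  have hmem : ∀ a : Po κ ⧸ J, a ∈ Algebra.adjoin κ (Set.range y) := by
    intro a
    obtain ⟨q, rfl⟩ := Ideal.Quotient.mk_surjective a
    rw [← hinv.aeval_right q, hmk, Algebra.adjoin_range_eq_range_aeval]
    exact ⟨_, rfl⟩
  have hD : ∀ a : Po κ ⧸ J, KaehlerDifferential.D κ (Po κ ⧸ J) a = 0 := by
    intro a
    have h := Derivation.eqOn_adjoin (D1 := KaehlerDifferential.D κ (Po κ ⧸ J)) (D2 := 0)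
      (s := Set.range y) (by
        rintro _ ⟨i, rfl⟩
        rw [hDy]
        rfl) (hmem a)
    rw [h]
    rfl
  have hsub : Subsingleton (Ω[(Po κ ⧸ J)⁄κ]) := by
    have h := KaehlerDifferential.span_range_derivation κ (Po κ ⧸ J)
    have h2 : Submodule.span (Po κ ⧸ J)
        (Set.range (KaehlerDifferential.D κ (Po κ ⧸ J))) = ⊥ := by
      rw [Submodule.span_eq_bot]
      rintro _ ⟨a, rfl⟩
      exact hD a
    rw [h2] at h
    exact (Submodule.subsingleton_iff (Po κ ⧸ J)).1 (subsingleton_of_bot_eq_top h)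
  have hunr : Algebra.FormallyUnramified κ (Po κ ⧸ J) := ⟨hsub⟩
  exact Algebra.FormallyUnramified.isReduced_of_field κ (Po κ ⧸ J)

end Pool.Agent.H94.ZA
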